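import Pool.Agent.Y444.RP.Stm2

/-! RP2-NOT: an open subspace of the countable power is not countably metacompact. -/

set_option autoImplicit false

open Set TopologicalSpace

namespace Pool.Agent.Y540.RP

open Pool.Agent.Helper332.NB Pool.Agent.Y444.RP

section

variable {W : Type} [LinearOrder W]

/-- a point -/
def mk (A : Nd W) (b : Bool) : Xs W := ((A, b) : Nd W × Bool)

/-- the sequence with the nodes `A i` before `k`, the point `(B, true)` at `k` and the root after -/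
def pp (r : Nd W) (k : ℕ) (A : ℕ → Nd W) (B : Nd W) : ℕ → Xs W := fun i =>
  if i < k then mk (A i) false else if i = k then mk B true else mk r false

theorem pp_lt (r : Nd W) {k : ℕ} (A : ℕ → Nd W) (B : Nd W) {i : ℕ} (h : i < k) :
    pp r k A B i = mk (A i) false := by
  unfold pp; rw [if_pos h]

theorem pp_eq (r : Nd W) (k : ℕ) (A : ℕ → Nd W) (B : Nd W) :
    pp r k A B k = mk B true := by
  unfold pp; rw [if_neg (lt_irrefl k), if_pos rfl]

theorem pp_gt (r : Nd W) {k : ℕ} (A : ℕ → Nd W) (B : Nd W) {i : ℕ} (h : k < i) :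
    pp r k A B i = mk r false := by
  unfold pp; rw [if_neg (by omega), if_neg (by omega)]

theorem pp_mem (r : Nd W) (k : ℕ) (A : ℕ → Nd W) (B : Nd W) : pp r k A B ∈ Zc W :=
  ⟨k, by rw [pp_eq]; rfl⟩

/-- the box condition -/
def Box (n : ℕ) (q u : ℕ → Xs W) : Prop :=
  ∀ i < n, ((q i).2 = true → u i = q i) ∧ ((q i).2 = false → u i ∈ Nb (q i).1 n)

theorem isOpen_true : IsOpen {x : Xs W | x.2 = true} := by
  have h : {x : Xs W | x.2 = true} = ⋃ A : Nd W, {((A, true) : Nd W × Bool)} := by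
    ext x
    constructor
    · intro hx
      exact Set.mem_iUnion.2 ⟨x.1, Prod.ext rfl hx⟩
    · intro hx
      obtain ⟨A, hA⟩ := Set.mem_iUnion.1 hx
      have h1 : x = mk A true := hA
      rw [h1]
      rfl
  rw [h]
  refine isOpen_iUnion fun A => ?_
  exact isOpen_generateFrom_of_mem (Or.inr ⟨A, rfl⟩)

theorem isOpen_Zc : IsOpen (Zc W) := by
  have h : Zc W = ⋃ k : ℕ, (fun q : ℕ → Xs W => q k) ⁻¹' {x : Xs W | x.2 = true} := by
    ext q
    simp only [Set.mem_iUnion]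
    rfl
  rw [h]
  exact isOpen_iUnion fun k => isOpen_true.preimage (continuous_apply k)

/-- the claim, from the existence of limits -/
theorem claim (hlim : ∀ A : ℕ → Nd W, (∀ n, (A n).le (A (n + 1))) → ∃ B : Nd W, ∀ n, (A n).le B)
    (hrefl : ∀ A : Nd W, A.le A) (htr : ∀ A B C : Nd W, A.le B → B.le C → A.le C)
    (f : Nd W → ℕ) (c : Nd W) :
    ∃ (n : ℕ) (c' : Nd W), c.le c' ∧ ∀ c'', c'.le c'' → ∃ B, c''.le B ∧ f B ≤ n := by
  by_contra hno
  push Not at hno
  choose g hg1 hg2 using hno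
  let s : ℕ → {d : Nd W // c.le d} := fun m => Nat.rec ⟨c, hrefl c⟩
    (fun m d => ⟨g m d.1 d.2, htr _ _ _ d.2 (hg1 m d.1 d.2)⟩) m
  have hs : ∀ m, s (m + 1) = ⟨g m (s m).1 (s m).2, htr _ _ _ (s m).2 (hg1 m (s m).1 (s m).2)⟩ :=
    fun m => rfl
  obtain ⟨B, hB⟩ := hlim (fun m => (s m).1) (fun m => by
    show (s m).1.le (s (m + 1)).1
    rw [hs]
    exact hg1 m (s m).1 (s m).2)
  have h1 : ∀ m, m < f B := by
    intro m
    have h2 := hB (m + 1)
    have h3 : (g m (s m).1 (s m).2).le B := h2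
    exact hg2 m (s m).1 (s m).2 B h3
  exact lt_irrefl _ (h1 (f B))

end

theorem t : Lim2Stm → Box2Stm → Not2Stm := by
  intro hLim hBox W _ hW
  refine ⟨isOpen_Zc, ?_⟩
  intro hCM
  obtain ⟨hrefl, htr, hext, hlim⟩ := hLim W hW
  have hBoxW := hBox W hW
  obtain ⟨⟨w0⟩⟩ : Nonempty (Nonempty W) := ⟨hW.2.1⟩
  let r : Nd W := ⟨(w0, fun _ => 0), fun _ _ => rfl⟩
  -- the cover
  let U : ℕ → Set (Zc W) := fun k => {q | ∃ i ≤ k, (q.1 i).2 = true}
  have hUo : ∀ k, IsOpen (U k) := by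
    intro k
    have h : U k = ⋃ i : ℕ, ⋃ _ : i ≤ k,
        (fun q : Zc W => q.1 i) ⁻¹' {x : Xs W | x.2 = true} := by
      ext q
      simp only [Set.mem_iUnion, Set.mem_preimage]
      constructor
      · rintro ⟨i, hi, h⟩; exact ⟨i, hi, h⟩
      · rintro ⟨i, hi, h⟩; exact ⟨i, hi, h⟩
    rw [h]
    exact isOpen_iUnion fun i => isOpen_iUnion fun _ =>
      isOpen_true.preimage ((continuous_apply i).comp continuous_subtype_val)
  have hUc : ⋃ k, U k = univ := by
    rw [Set.eq_univ_iff_forall]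
    intro q
    obtain ⟨k, hk⟩ := q.2
    exact Set.mem_iUnion.2 ⟨k, ⟨k, le_rfl, hk⟩⟩
  obtain ⟨𝒱, hVo, hVU, hVc, hVf⟩ := hCM U hUo hUc
  have hch : ∀ q : Zc W, ∃ (V : Set (Zc W)) (n : ℕ), V ∈ 𝒱 ∧ q ∈ V ∧
      ∀ u : Zc W, Box n q.1 u.1 → u ∈ V := by
    intro q
    have hq : q ∈ ⋃₀ 𝒱 := by rw [hVc]; trivial
    obtain ⟨V, hV, hqV⟩ := hq
    obtain ⟨O, hO, rfl⟩ := hVo V hV
    obtain ⟨n, hn⟩ := hBoxW O q.1 hO hqV
    exact ⟨_, n, hV, hqV, fun u hu => hn u.1 hu⟩
  choose V n hV hqV hbox using hch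
  let P : ℕ → (ℕ → Nd W) → Nd W → Zc W := fun k A B => ⟨pp r k A B, pp_mem r k A B⟩
  have hcl : ∀ (k : ℕ) (A : ℕ → Nd W) (c : Nd W), ∃ (m : ℕ) (c' : Nd W), c.le c' ∧
      ∀ c'', c'.le c'' → ∃ B, c''.le B ∧ n (P k A B) ≤ m := fun k A c =>
    claim hlim hrefl htr (fun B => n (P k A B)) c
  choose cn cc hcc hcn using hcl
  choose ext1 he1 he2 using hext
  -- the construction
  let stp : ℕ → (ℕ → Nd W) × ℕ → (ℕ → Nd W) × ℕ := fun m S =>
    (fun i => if i < m then ext1 (S.1 i) (max S.2 (cn m S.1 (ext1 r S.2)))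
      else if i = m then cc m S.1 (ext1 r S.2) else r, max S.2 (cn m S.1 (ext1 r S.2)))
  let St : ℕ → (ℕ → Nd W) × ℕ := fun m => Nat.rec (fun _ => r, 0) (fun m S => stp m S) m
  have hSt : ∀ m, St (m + 1) = stp m (St m) := fun m => rfl
  let C : ℕ → ℕ → Nd W := fun m => (St m).1
  let N : ℕ → ℕ := fun m => (St m).2
  have hN : ∀ m, N (m + 1) = max (N m) (cn m (C m) (ext1 r (N m))) := fun m => rfl
  have hC1 : ∀ m i, i < m → C (m + 1) i = ext1 (C m i) (N (m + 1)) := by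
    intro m i hi
    show (if i < m then _ else _) = _
    rw [if_pos hi]
  have hC2 : ∀ m, C (m + 1) m = cc m (C m) (ext1 r (N m)) := by
    intro m
    show (if m < m then _ else if m = m then _ else _) = _
    rw [if_neg (lt_irrefl m), if_pos rfl]
  have hNmono : Monotone N := monotone_nat_of_le_succ fun m => by rw [hN]; exact le_max_left _ _
  have hnm : ∀ m, cn m (C m) (ext1 r (N m)) ≤ N (m + 1) := fun m => by
    rw [hN]; exact le_max_right _ _
  -- the limits
  have hL : ∀ i, ∃ L : Nd W, ∀ j, (C (i + 1 + j) i).le L := by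
    intro i
    refine hlim (fun j => C (i + 1 + j) i) fun j => ?_
    show (C (i + 1 + j) i).le (C (i + 1 + j + 1) i)
    rw [hC1 (i + 1 + j) i (by omega)]
    exact he1 _ _
  choose L hL using hL
  have hE : ∀ i, ∃ E : Nd W, (L i).le E ∧ n (P i (C i) E) ≤ cn i (C i) (ext1 r (N i)) := by
    intro i
    refine hcn i (C i) (ext1 r (N i)) (L i) ?_
    have := hL i 0
    rw [add_zero, hC2] at this
    exact this
  choose E hE1 hE2 using hE
  have hCE : ∀ i m, i < m → (C m i).le (E i) := by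
    intro i m him
    obtain ⟨j, rfl⟩ : ∃ j, m = i + 1 + j := ⟨m - (i + 1), by omega⟩
    exact htr _ _ _ (hL i j) (hE1 i)
  let u : Zc W := ⟨fun i => mk (E i) true, ⟨0, rfl⟩⟩
  have huV : ∀ m, u ∈ V (P m (C m) (E m)) := by
    intro m
    refine hbox (P m (C m) (E m)) u ?_
    intro i _
    have hle : n (P m (C m) (E m)) ≤ N (m + 1) := (hE2 m).trans (hnm m)
    rcases lt_trichotomy i m with h | h | h
    · have e : (P m (C m) (E m)).1 i = mk (C m i) false := pp_lt r _ _ h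
      rw [e]
      refine ⟨fun h0 => absurd h0 (by simp [mk]), fun _ => ?_⟩
      have h1 : (ext1 (C m i) (N (m + 1))).le (E i) := by
        rw [← hC1 m i h]
        exact hCE i (m + 1) (by omega)
      have h2 := he2 _ _ _ h1
      refine ⟨hCE i m h, Or.inr ⟨h2.1, ?_⟩⟩
      show _ ≤ (E i).val (C m i).len
      rw [h2.2]
      exact hle
    · subst h
      have e : (P i (C i) (E i)).1 i = mk (E i) true := pp_eq r _ _ _
      rw [e]
      exact ⟨fun _ => rfl, fun h0 => absurd h0 (by simp [mk])⟩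
    · have e : (P m (C m) (E m)).1 i = mk r false := pp_gt r _ _ h
      rw [e]
      refine ⟨fun h0 => absurd h0 (by simp [mk]), fun _ => ?_⟩
      have h1 : (ext1 r (N i)).le (E i) := by
        have h3 := hCE i (i + 1) (by omega)
        rw [hC2] at h3
        exact htr _ _ _ (hcc i (C i) (ext1 r (N i))) h3
      have h2 := he2 _ _ _ h1
      refine ⟨htr _ _ _ (he1 r (N i)) h1, Or.inr ⟨h2.1, ?_⟩⟩
      show _ ≤ (E i).val r.len
      rw [h2.2]
      exact hle.trans (hNmono (show m + 1 ≤ i from h))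
  -- the contradiction
  choose! K hK using hVU
  obtain ⟨M, hM⟩ := ((hVf u).image K).bddAbove
  have h1 : K (V (P (M + 1) (C (M + 1)) (E (M + 1)))) ≤ M :=
    hM ⟨_, ⟨hV _, huV (M + 1)⟩, rfl⟩
  have h2 := hK _ (hV (P (M + 1) (C (M + 1)) (E (M + 1)))) (hqV _)
  obtain ⟨i, hi, h3⟩ := h2
  have h4 : (P (M + 1) (C (M + 1)) (E (M + 1))).1 i =
      mk (C (M + 1) i) false := pp_lt r _ _ (by omega)
  rw [h4] at h3
  exact absurd h3 (by simp [mk])

end Pool.Agent.Y540.RP
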